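import Mathlib
import Pool.Agent.KS6_22.DS.Sharp
import Pool.Agent.KS6_57.DS.Lower
import Pool.Graph.R_seed8.Results.MP_d49c4f_nt.BoundedMoments

/-!
# Initial divisor sums: the sharp double exponential law, with Mertens' constant

`f (N)` is the least `n` such that `N` is an initial sum of the divisors of `n` exceeding `1`.  The
double exponential moments of `N / f (N)` are bounded for every constant less than `e ^ (-γ)`, and
for no larger constant; in particular `f (N) ≤ ε N` for at most `C exp (- exp (c / ε)) x` of the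
`N ≤ x`, for every `c < e ^ (-γ)`.  Let `share ε` be the supremum over `x` of the proportion of the
`N ≤ x` with `f (N) ≤ ε N`; then `log log (1 / share ε) ~ e ^ (-γ) / ε` as `ε → 0`.  The lower limit
of `f (N) log log N / N` is `e ^ (-γ)`.  (Joint work of two helpers: 57 for the share, 22 for the
moments and the lower limit.)
-/

set_option autoImplicit false

open Finset Filter Topology

namespace Pool.Agent.Results.MP_d49c4f_nt.DoubleExponentialLaw

/-- `D n` is the set of nonempty initial sums of the increasing sequence of the divisors of `n`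
that exceed `1`: for each divisor `d > 1` of `n`, the sum of all divisors `e` of `n` with
`1 < e ≤ d`.  In particular `D 0 = D 1 = ∅`. -/
def D (n : ℕ) : Set ℕ :=
  {N | ∃ d ∈ n.divisors, 1 < d ∧ N = ∑ e ∈ n.divisors with 1 < e ∧ e ≤ d, e}

/-- `N` is representable if it lies in `D n` for some `n`. -/
def Representable (N : ℕ) : Prop := ∃ n, N ∈ D n

/-- The least `n` with `N ∈ D n` for representable `N`; for the other (finitely many) `N` this is
`0`, and in the real numbers `N / 0 = 0`. -/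
noncomputable def f (N : ℕ) : ℕ := sInf {n | N ∈ D n}

/-- The number of elements of `E` in `{1, …, x}`. -/
noncomputable def count (E : Set ℕ) (x : ℕ) : ℕ := (E ∩ Set.Icc 1 x).ncard

/-- The set `E` of natural numbers has natural density `δ`. -/
def HasDensity (E : Set ℕ) (δ : ℝ) : Prop :=
  Tendsto (fun x : ℕ => (count E x : ℝ) / x) atTop (𝓝 δ)

/-- The supremum over `x` of the proportion of the `N ≤ x` which are representable with
`f (N) ≤ ε N`. -/
noncomputable def share (ε : ℝ) : ℝ :=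
  ⨆ x : ℕ, (count {N | Representable N ∧ (f N : ℝ) ≤ ε * N} x : ℝ) / x

/-- all sufficiently large `N` are representable -/
theorem large_representable : ∃ N₀, ∀ N ≥ N₀, Representable N := by
  obtain ⟨N₀, h⟩ := Pool.Agent.Helper954.InitSum.large_init
  refine ⟨N₀, fun N hN => ?_⟩
  obtain ⟨m, d, hd, hd1, hs⟩ := h (N + 1) (by omega)
  refine ⟨m, d, hd, hd1, ?_⟩
  have := Pool.Agent.Helper954.InitSum.sum_gt_one m d hd
  omega

theorem pos_of_mem {n N : ℕ} (h : N ∈ D n) : 0 < n ∧ 0 < N := by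
  obtain ⟨d, hd, hd1, rfl⟩ := h
  refine ⟨Nat.pos_of_ne_zero (Nat.mem_divisors.1 hd).2, ?_⟩
  have h1 : d ≤ ∑ e ∈ n.divisors with 1 < e ∧ e ≤ d, e :=
    Finset.single_le_sum (f := fun e => e) (fun _ _ => Nat.zero_le _)
      (Finset.mem_filter.2 ⟨hd, hd1, le_rfl⟩)
  omega

theorem f_mem {N : ℕ} (h : Representable N) : N ∈ D (f N) := Nat.sInf_mem (s := {n | N ∈ D n}) h

theorem f_pos {N : ℕ} (h : Representable N) : 0 < f N := (pos_of_mem (f_mem h)).1

theorem f_zero {N : ℕ} (h : ¬ Representable N) : f N = 0 := by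
  have : {n | N ∈ D n} = ∅ := by
    ext n
    simp only [Set.mem_ofPred_eq, Set.mem_empty_iff_false, iff_false]
    exact fun hn => h ⟨n, hn⟩
  rw [f, this, Nat.sInf_empty]

/-- the constant `e ^ (-γ)` -/
noncomputable abbrev kap : ℝ := Real.exp (-Real.eulerMascheroniConstant)

/-- the double exponential bound for finite sets of representable numbers -/
theorem tail_finset {c : ℝ} (hc0 : 0 < c) (hc : c < kap) :
    ∃ (A₀ K : ℝ), 1 ≤ A₀ ∧ 0 ≤ K ∧ ∀ A : ℝ, A₀ ≤ A → ∀ (x : ℕ) (S : Finset ℕ),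
      (∀ N ∈ S, N ≤ x ∧ Representable N ∧ A * (f N : ℝ) ≤ N) →
      (S.card : ℝ) ≤ K * x * Real.exp (-Real.exp (c * A)) := by
  classical
  obtain ⟨A₀, K, h1, h2, h3⟩ := Pool.Agent.KS6_22.DS.tail_large hc0 hc
  refine ⟨A₀, K, h1, h2, fun A hA x S hS => ?_⟩
  have hmem : ∀ N ∈ S, ∃ d ∈ (f N).divisors, 1 < d ∧
      N = ∑ e ∈ (f N).divisors with 1 < e ∧ e ≤ d, e := fun N hN => f_mem (hS N hN).2.1
  choose! d hd hd1 hsum using hmem
  refine h3 A hA (fun m d => ∑ e ∈ m.divisors with 1 < e ∧ e ≤ d, e) (fun m d => ?_) x S f d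
    (fun N hN => ⟨(pos_of_mem (f_mem (hS N hN).2.1)).2, (hS N hN).1, hd N hN, hsum N hN,
      (hS N hN).2.2⟩)
  apply Finset.sum_le_sum_of_subset
  intro e he
  simp only [mem_filter] at he ⊢
  exact ⟨he.1, he.2.2⟩

theorem count_eq (P : ℕ → Prop) [DecidablePred P] (x : ℕ) :
    count {N | P N} x = ((Finset.Icc 1 x).filter P).card := by
  unfold count
  rw [← Set.ncard_coe_finset]
  congr 1
  ext N
  simp only [Set.mem_inter_iff, Set.mem_ofPred_eq, Set.mem_Icc, Finset.coe_filter,
    Finset.mem_Icc]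
  tauto

theorem count_le (E : Set ℕ) (x : ℕ) : count E x ≤ x := by
  unfold count
  calc (E ∩ Set.Icc 1 x).ncard ≤ (Set.Icc 1 x).ncard :=
        Set.ncard_le_ncard Set.inter_subset_right (Set.finite_Icc 1 x)
    _ = x := by
        rw [← Finset.coe_Icc, Set.ncard_coe_finset, Nat.card_Icc]
        omega

/-- the tail bound for all `ε` -/
theorem tail {c : ℝ} (hc : c < kap) : ∃ C : ℝ, 0 ≤ C ∧ ∀ ε : ℝ, 0 < ε → ∀ x : ℕ,
    (count {N | Representable N ∧ (f N : ℝ) ≤ ε * N} x : ℝ) ≤
      C * Real.exp (-Real.exp (c / ε)) * x := by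
  classical
  have hk0 : 0 < kap := Real.exp_pos _
  set c₁ : ℝ := max c (kap / 2) with hc1
  have hc10 : 0 < c₁ := lt_of_lt_of_le (by linarith) (le_max_right _ _)
  have hc1k : c₁ < kap := max_lt hc (by linarith)
  obtain ⟨A₀, K, hA₀, hK, h⟩ := tail_finset hc10 hc1k
  refine ⟨K + Real.exp (Real.exp (c₁ * A₀)), by positivity, fun ε hε x => ?_⟩
  have hx0 : (0 : ℝ) ≤ x := Nat.cast_nonneg x
  have hmono : Real.exp (-Real.exp (c₁ / ε)) ≤ Real.exp (-Real.exp (c / ε)) := by
    apply Real.exp_le_exp.2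
    apply neg_le_neg
    apply Real.exp_le_exp.2
    exact div_le_div_of_nonneg_right (le_max_left _ _) hε.le
  suffices hs : (count {N | Representable N ∧ (f N : ℝ) ≤ ε * N} x : ℝ) ≤
      (K + Real.exp (Real.exp (c₁ * A₀))) * Real.exp (-Real.exp (c₁ / ε)) * x by
    refine hs.trans ?_
    gcongr
  by_cases hA : A₀ ≤ 1 / ε
  · rw [count_eq]
    have h1 := h (1 / ε) hA x ((Finset.Icc 1 x).filter
      (fun N => Representable N ∧ (f N : ℝ) ≤ ε * N)) (fun N hN => by
        rw [mem_filter, Finset.mem_Icc] at hN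
        refine ⟨hN.1.2, hN.2.1, ?_⟩
        rw [one_div, inv_mul_le_iff₀ hε]
        exact hN.2.2)
    rw [mul_one_div] at h1
    refine h1.trans ?_
    have h2 : 0 ≤ Real.exp (Real.exp (c₁ * A₀)) * Real.exp (-Real.exp (c₁ / ε)) * x := by
      positivity
    linarith
  · rw [not_le] at hA
    have h1 : Real.exp (c₁ / ε) ≤ Real.exp (c₁ * A₀) := by
      apply Real.exp_le_exp.2
      rw [div_eq_mul_one_div]
      exact mul_le_mul_of_nonneg_left hA.le hc10.le
    have h2 : 1 ≤ Real.exp (Real.exp (c₁ * A₀)) * Real.exp (-Real.exp (c₁ / ε)) := by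
      rw [← Real.exp_add]
      apply Real.one_le_exp
      linarith
    have h3 : (count {N | Representable N ∧ (f N : ℝ) ≤ ε * N} x : ℝ) ≤ x := by
      exact_mod_cast count_le _ x
    have h4 : 0 ≤ K * Real.exp (-Real.exp (c₁ / ε)) * x := by positivity
    nlinarith

/-- the comparison series -/
theorem summable_layers {a b : ℝ} (ha : 0 < a) (hab : a < b) :
    Summable fun j : ℕ => Real.exp (Real.exp (a * (j + 1)) - Real.exp (b * j)) := by
  have hlim : Tendsto (fun t : ℝ => Real.exp (a * t) * (Real.exp ((b - a) * t) - Real.exp a - 1) +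
      (Real.exp (a * t) - t)) atTop atTop := by
    apply Tendsto.atTop_add_atTop
    · apply Tendsto.atTop_mul_atTop₀
      · exact Real.tendsto_exp_atTop.comp (tendsto_id.const_mul_atTop ha)
      · simp only [sub_sub]
        apply tendsto_atTop_add_const_right
        exact Real.tendsto_exp_atTop.comp (tendsto_id.const_mul_atTop (by linarith))
    · have h1 : Tendsto (fun t : ℝ => Real.exp (a * t) / (a * t) ^ 1) atTop atTop :=
        (Real.tendsto_exp_div_pow_atTop 1).comp (tendsto_id.const_mul_atTop ha)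
      have h2 : Tendsto (fun t : ℝ => t * (Real.exp (a * t) / (a * t) ^ 1 * a - 1)) atTop atTop := by
        apply Tendsto.atTop_mul_atTop₀ tendsto_id
        apply tendsto_atTop_add_const_right
        exact h1.atTop_mul_const ha
      refine h2.congr' ?_
      filter_upwards [eventually_gt_atTop 0] with t ht
      field_simp
  have hlim2 := hlim.comp (tendsto_natCast_atTop_atTop (R := ℝ))
  obtain ⟨J, hJ⟩ := eventually_atTop.1 (hlim2.eventually_ge_atTop 0)
  rw [← summable_nat_add_iff J]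
  have h1 : Summable fun j : ℕ => Real.exp (-((j + J : ℕ) : ℝ)) := by
    have h2 : Summable fun j : ℕ => Real.exp (-(1 : ℝ)) ^ j :=
      summable_geometric_of_lt_one (Real.exp_pos _).le (by
        rw [Real.exp_lt_one_iff]
        norm_num)
    have h3 := (summable_nat_add_iff J).2 h2
    refine h3.congr fun j => ?_
    rw [← Real.exp_nat_mul]
    congr 1
    ring
  refine Summable.of_nonneg_of_le (fun j => (Real.exp_pos _).le) (fun j => ?_) h1
  apply Real.exp_le_exp.2
  have h4 := hJ (j + J) (Nat.le_add_left _ _)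
  simp only [Function.comp_apply] at h4
  generalize ((j + J : ℕ) : ℝ) = t at h4 ⊢
  have h5 : Real.exp (a * t) * Real.exp ((b - a) * t) = Real.exp (b * t) := by
    rw [← Real.exp_add]
    congr 1
    ring
  have h6 : Real.exp (a * t) * Real.exp a = Real.exp (a * (t + 1)) := by
    rw [← Real.exp_add]
    congr 1
    ring
  nlinarith

/-- the double exponential moments -/
theorem moments {c : ℝ} (hc : c < kap) : ∃ C : ℝ, ∀ x : ℕ,
    ∑ N ∈ Finset.Icc 1 x, Real.exp (Real.exp (c * (N / f N))) ≤ C * x := by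
  classical
  have hk0 : 0 < kap := Real.exp_pos _
  set a : ℝ := max c (kap / 2) with ha
  have ha0 : 0 < a := lt_of_lt_of_le (by linarith) (le_max_right _ _)
  have hak : a < kap := max_lt hc (by linarith)
  set b : ℝ := (a + kap) / 2 with hb
  have hab : a < b := by linarith
  have hbk : b < kap := by linarith
  obtain ⟨A₀, K, hA₀, hK, h⟩ := tail_finset (ha0.trans hab) hbk
  set T : ℕ := ⌈A₀⌉₊ with hT
  have hT1 : A₀ ≤ T := Nat.le_ceil A₀
  have hT2 : 1 ≤ T := by
    have : (1 : ℝ) ≤ T := hA₀.trans hT1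
    exact_mod_cast this
  have hsum := summable_layers ha0 hab
  set Z : ℝ := ∑' j : ℕ, Real.exp (Real.exp (a * (j + 1)) - Real.exp (b * j)) with hZ
  refine ⟨Real.exp (Real.exp (a * T)) + K * Z, fun x => ?_⟩
  -- the pointwise bound
  have hpt : ∀ N ∈ Finset.Icc 1 x, Real.exp (Real.exp (c * (N / f N))) ≤
      Real.exp (Real.exp (a * T)) + ∑ j ∈ Finset.Ico T (x + 1),
        if (j : ℝ) ≤ (N : ℝ) / f N then Real.exp (Real.exp (a * (j + 1))) else 0 := by
    intro N hN
    rw [Finset.mem_Icc] at hN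
    have hr0 : 0 ≤ (N : ℝ) / f N := by positivity
    have h1 : Real.exp (Real.exp (c * (N / f N))) ≤ Real.exp (Real.exp (a * (N / f N))) := by
      apply Real.exp_le_exp.2
      apply Real.exp_le_exp.2
      exact mul_le_mul_of_nonneg_right (le_max_left _ _) hr0
    refine h1.trans ?_
    have hnn : 0 ≤ ∑ j ∈ Finset.Ico T (x + 1),
        if (j : ℝ) ≤ (N : ℝ) / f N then Real.exp (Real.exp (a * (j + 1))) else 0 := by
      apply Finset.sum_nonneg
      intro j _
      split_ifs <;> positivity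
    by_cases hr : (N : ℝ) / f N < T
    · have h2 : Real.exp (Real.exp (a * (N / f N))) ≤ Real.exp (Real.exp (a * T)) := by
        apply Real.exp_le_exp.2
        apply Real.exp_le_exp.2
        exact mul_le_mul_of_nonneg_left hr.le ha0.le
      linarith
    · rw [not_lt] at hr
      set j := ⌊(N : ℝ) / f N⌋₊ with hj
      have hj1 : (j : ℝ) ≤ (N : ℝ) / f N := Nat.floor_le hr0
      have hj2 : (N : ℝ) / f N < j + 1 := Nat.lt_floor_add_one _
      have hj3 : T ≤ j := Nat.le_floor hr
      have hj4 : j < x + 1 := by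
        have h3 : (N : ℝ) / f N ≤ N := by
          by_cases hf : f N = 0
          · rw [hf, Nat.cast_zero, div_zero]
            positivity
          · have : (1 : ℝ) ≤ f N := by exact_mod_cast Nat.one_le_iff_ne_zero.2 hf
            exact div_le_self (Nat.cast_nonneg N) this
        have h4 : (j : ℝ) ≤ N := hj1.trans h3
        have h5 : j ≤ N := by exact_mod_cast h4
        omega
      have h2 : Real.exp (Real.exp (a * (N / f N))) ≤ Real.exp (Real.exp (a * (j + 1))) := by
        apply Real.exp_le_exp.2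
        apply Real.exp_le_exp.2
        exact mul_le_mul_of_nonneg_left hj2.le ha0.le
      have h3 : Real.exp (Real.exp (a * (j + 1))) ≤ ∑ j ∈ Finset.Ico T (x + 1),
          if (j : ℝ) ≤ (N : ℝ) / f N then Real.exp (Real.exp (a * (j + 1))) else 0 := by
        have h4 := Finset.single_le_sum (s := Finset.Ico T (x + 1))
          (f := fun j : ℕ => if (j : ℝ) ≤ (N : ℝ) / f N then
            Real.exp (Real.exp (a * (j + 1))) else 0)
          (fun i _ => by
            show 0 ≤ if (i : ℝ) ≤ (N : ℝ) / f N then Real.exp (Real.exp (a * (i + 1))) else 0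
            split_ifs <;> positivity) (Finset.mem_Ico.2 ⟨hj3, hj4⟩)
        simp only [hj1, if_true] at h4
        exact h4
      have := Real.exp_pos (Real.exp (a * T))
      linarith
  refine (Finset.sum_le_sum hpt).trans ?_
  rw [Finset.sum_add_distrib, Finset.sum_comm, Finset.sum_const, Nat.card_Icc, nsmul_eq_mul,
    Nat.add_sub_cancel, add_mul, mul_comm (x : ℝ)]
  apply add_le_add_right
  -- the layers
  have hlayer : ∀ j ∈ Finset.Ico T (x + 1), (∑ N ∈ Finset.Icc 1 x,
      if (j : ℝ) ≤ (N : ℝ) / f N then Real.exp (Real.exp (a * (j + 1))) else 0) ≤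
      K * x * Real.exp (Real.exp (a * (j + 1)) - Real.exp (b * j)) := by
    intro j hj
    rw [Finset.mem_Ico] at hj
    rw [← Finset.sum_filter, Finset.sum_const, nsmul_eq_mul]
    have hjA : A₀ ≤ j := hT1.trans (by exact_mod_cast hj.1)
    have hj0 : (0 : ℝ) < j := by linarith
    have h1 := h j hjA x ((Finset.Icc 1 x).filter (fun N : ℕ => (j : ℝ) ≤ (N : ℝ) / f N))
      (fun N hN => by
        rw [mem_filter, Finset.mem_Icc] at hN
        have hrep : Representable N := by
          by_contra hnr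
          rw [f_zero hnr, Nat.cast_zero, div_zero] at hN
          linarith [hN.2]
        have hf : (0 : ℝ) < f N := by exact_mod_cast f_pos hrep
        refine ⟨hN.1.2, hrep, ?_⟩
        exact (le_div_iff₀ hf).1 hN.2)
    calc (((Finset.Icc 1 x).filter (fun N : ℕ => (j : ℝ) ≤ (N : ℝ) / f N)).card : ℝ) *
          Real.exp (Real.exp (a * (j + 1)))
        ≤ (K * x * Real.exp (-Real.exp (b * j))) * Real.exp (Real.exp (a * (j + 1))) :=
          mul_le_mul_of_nonneg_right h1 (Real.exp_pos _).le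
      _ = _ := by
          rw [mul_assoc, ← Real.exp_add]
          congr 2
          ring
  refine (Finset.sum_le_sum hlayer).trans ?_
  rw [← Finset.mul_sum]
  have h1 : ∑ j ∈ Finset.Ico T (x + 1), Real.exp (Real.exp (a * (j + 1)) - Real.exp (b * j)) ≤ Z :=
    hsum.sum_le_tsum _ (fun j _ => (Real.exp_pos _).le)
  have h2 : 0 ≤ K * x := by positivity
  calc K * x * ∑ j ∈ Finset.Ico T (x + 1), Real.exp (Real.exp (a * (j + 1)) - Real.exp (b * j))
      ≤ K * x * Z := mul_le_mul_of_nonneg_left h1 h2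
    _ = K * Z * x := by ring

theorem kap_mul : kap * Real.exp Real.eulerMascheroniConstant = 1 := by
  rw [← Real.exp_add, neg_add_cancel, Real.exp_zero]

/-- representable numbers with a small `f`, with Mertens' constant -/
theorem exists_big (δ : ℝ) (hδ : 0 < δ) (N₀ : ℕ) : ∃ N : ℕ, N₀ ≤ N ∧ Representable N ∧
    0 < Real.log (Real.log N) ∧
    (Real.exp Real.eulerMascheroniConstant - δ) * Real.log (Real.log N) * f N ≤ N := by
  obtain ⟨n, N, hn, hN, hs, hlog, hle⟩ := Pool.Agent.KS6_22.DS.exists_large δ hδ N₀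
  have hmem : n ∈ n.divisors := Nat.mem_divisors.2 ⟨dvd_rfl, by omega⟩
  have hND : N ∈ D n := by
    refine ⟨n, hmem, hn, ?_⟩
    have h1 := Pool.Agent.Helper954.InitSum.sum_gt_one n n hmem
    have h2 : ∑ e ∈ n.divisors with e ≤ n, e = ∑ e ∈ n.divisors, e := by
      rw [Finset.filter_true_of_mem]
      intro e he
      exact Nat.le_of_dvd (by omega) (Nat.dvd_of_mem_divisors he)
    omega
  have hf : f N ≤ n := Nat.sInf_le (show n ∈ {n | N ∈ D n} from hND)
  refine ⟨N, hN, ⟨n, hND⟩, hlog, ?_⟩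
  by_cases hG : Real.exp Real.eulerMascheroniConstant - δ ≤ 0
  · have h1 : 0 ≤ Real.log (Real.log N) * f N := mul_nonneg hlog.le (Nat.cast_nonneg _)
    have h2 : (Real.exp Real.eulerMascheroniConstant - δ) * Real.log (Real.log N) * f N ≤ 0 := by
      rw [mul_assoc]
      exact mul_nonpos_of_nonpos_of_nonneg hG h1
    exact h2.trans (Nat.cast_nonneg N)
  · rw [not_le] at hG
    refine le_trans ?_ hle
    have h1 : (f N : ℝ) ≤ n := by exact_mod_cast hf
    exact mul_le_mul_of_nonneg_left h1 (mul_nonneg hG.le hlog.le)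

theorem loglog_tendsto : Tendsto (fun N : ℕ => Real.log (Real.log N)) atTop atTop :=
  Real.tendsto_log_atTop.comp (Real.tendsto_log_atTop.comp tendsto_natCast_atTop_atTop)

/-- `exp (κ log log N) ≥ 2 log N` for `κ > 1` -/
theorem exp_loglog {κ : ℝ} (hκ : 1 < κ) : ∀ᶠ N : ℕ in atTop,
    2 * Real.log N ≤ Real.exp (κ * Real.log (Real.log N)) := by
  have h1 : Tendsto (fun N : ℕ => Real.exp ((κ - 1) * Real.log (Real.log N))) atTop atTop :=
    Real.tendsto_exp_atTop.comp (loglog_tendsto.const_mul_atTop (by linarith))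
  filter_upwards [h1.eventually_ge_atTop 2, eventually_ge_atTop 3] with N hN hN3
  have h3 : (3 : ℝ) ≤ N := by exact_mod_cast hN3
  have h4 : 0 < Real.log N := Real.log_pos (by linarith)
  have h5 : Real.exp (κ * Real.log (Real.log N)) =
      Real.exp ((κ - 1) * Real.log (Real.log N)) * Real.log N := by
    conv_rhs => rw [← Real.exp_log h4]
    rw [Real.log_exp, ← Real.exp_add]
    congr 1
    ring
  rw [h5]
  exact mul_le_mul_of_nonneg_right hN h4.le

/-- no larger constant is possible -/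
theorem moments_unbounded {c : ℝ} (hc : kap < c) (C : ℝ) : ∃ x : ℕ, 1 ≤ x ∧
    C * x < ∑ N ∈ Finset.Icc 1 x, Real.exp (Real.exp (c * (N / f N))) := by
  set G : ℝ := Real.exp Real.eulerMascheroniConstant with hG
  have hG0 : 0 < G := Real.exp_pos _
  have hc0 : 0 < c := (Real.exp_pos _).trans hc
  have hcG : 1 < c * G := by
    rw [← kap_mul]
    exact mul_lt_mul_of_pos_right hc hG0
  set δ : ℝ := (G - 1 / c) / 2 with hδ
  have h1c : 1 / c < G := by rwa [div_lt_iff₀ hc0, mul_comm]
  have hδ0 : 0 < δ := by linarith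
  have hκ : 1 < c * (G - δ) := by
    have h1 : c * (G - δ) = (c * G + 1) / 2 := by
      rw [hδ]
      field_simp
      ring
    rw [h1]
    linarith
  obtain ⟨N₁, hN₁⟩ := eventually_atTop.1 (exp_loglog hκ)
  obtain ⟨N, hN, hrep, hll, hle⟩ := exists_big δ hδ0 (max N₁ (⌈C⌉₊ + 2))
  have hN1 : N₁ ≤ N := (le_max_left _ _).trans hN
  have hN2 : ⌈C⌉₊ + 2 ≤ N := (le_max_right _ _).trans hN
  have hNR : (0 : ℝ) < N := by
    have : 0 < N := by omega
    exact_mod_cast this
  have hCN : C < N := by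
    have h1 : C ≤ ⌈C⌉₊ := Nat.le_ceil C
    have h2 : ((⌈C⌉₊ + 2 : ℕ) : ℝ) ≤ N := by exact_mod_cast hN2
    push_cast at h2
    linarith
  have hf : (0 : ℝ) < f N := by exact_mod_cast f_pos hrep
  refine ⟨N, by omega, ?_⟩
  have h1 : Real.exp (Real.exp (c * (N / f N))) ≤
      ∑ N ∈ Finset.Icc 1 N, Real.exp (Real.exp (c * (N / f N))) :=
    Finset.single_le_sum (f := fun N : ℕ => Real.exp (Real.exp (c * ((N : ℝ) / f N))))
      (fun i _ => (Real.exp_pos _).le) (Finset.mem_Icc.2 ⟨by omega, le_rfl⟩)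
  refine lt_of_lt_of_le ?_ h1
  have h2 : c * (G - δ) * Real.log (Real.log N) ≤ c * (N / f N) := by
    rw [mul_assoc]
    apply mul_le_mul_of_nonneg_left _ hc0.le
    rwa [le_div_iff₀ hf]
  have h3 : 2 * Real.log N ≤ Real.exp (c * (N / f N)) :=
    (hN₁ N hN1).trans (Real.exp_le_exp.2 h2)
  have h4 : (N : ℝ) ^ 2 ≤ Real.exp (Real.exp (c * (N / f N))) := by
    calc (N : ℝ) ^ 2 = Real.exp (2 * Real.log N) := by
          rw [two_mul, Real.exp_add, Real.exp_log hNR, sq]
      _ ≤ _ := Real.exp_le_exp.2 h3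
  refine lt_of_lt_of_le ?_ h4
  rw [sq]
  exact mul_lt_mul_of_pos_right hCN hNR

/-- the lower bound for `f` -/
theorem lower {c : ℝ} (hc0 : 0 < c) (hc : c < kap) : ∀ᶠ N : ℕ in atTop,
    c ≤ (f N : ℝ) * Real.log (Real.log N) / N := by
  classical
  set c₁ : ℝ := (c + kap) / 2 with hc1
  have h1 : c < c₁ := by linarith
  have h2 : c₁ < kap := by linarith
  obtain ⟨A₀, K, hA₀, hK, h⟩ := tail_finset (hc0.trans h1) h2
  obtain ⟨M₀, hM₀⟩ := large_representable
  have hκ : 1 < c₁ / c := (one_lt_div hc0).2 h1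
  have h3 : Tendsto (fun N : ℕ => Real.log (Real.log N) / c) atTop atTop :=
    loglog_tendsto.atTop_div_const hc0
  filter_upwards [h3.eventually_ge_atTop A₀, exp_loglog hκ, eventually_ge_atTop M₀,
    eventually_ge_atTop (⌈K⌉₊ + 1)] with N hN1 hN2 hN3 hN4
  have hNR : (0 : ℝ) < N := by
    have : 0 < N := by omega
    exact_mod_cast this
  by_contra hlt
  rw [not_le, div_lt_iff₀ hNR] at hlt
  have h4 := h _ hN1 N {N} (fun M hM => by
    rw [Finset.mem_singleton] at hM
    subst hM
    refine ⟨le_rfl, hM₀ _ hN3, ?_⟩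
    rw [div_mul_eq_mul_div, div_le_iff₀ hc0]
    linarith)
  rw [Finset.card_singleton, Nat.cast_one] at h4
  have h5 : c₁ * (Real.log (Real.log N) / c) = c₁ / c * Real.log (Real.log N) := by ring
  rw [h5] at h4
  have h6 : Real.exp (-Real.exp (c₁ / c * Real.log (Real.log N))) ≤ Real.exp (-(2 * Real.log N)) :=
    Real.exp_le_exp.2 (neg_le_neg hN2)
  have h7 : Real.exp (-(2 * Real.log N)) = ((N : ℝ) * N)⁻¹ := by
    rw [Real.exp_neg, two_mul, Real.exp_add, Real.exp_log hNR]
  rw [h7] at h6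
  have h8 : 1 ≤ K * N * ((N : ℝ) * N)⁻¹ :=
    h4.trans (mul_le_mul_of_nonneg_left h6 (by positivity))
  have h9 : K * N * ((N : ℝ) * N)⁻¹ = K / N := by
    field_simp
  rw [h9, le_div_iff₀ hNR, one_mul] at h8
  have h10 : K ≤ ⌈K⌉₊ := Nat.le_ceil K
  have h11 : ((⌈K⌉₊ + 1 : ℕ) : ℝ) ≤ N := by exact_mod_cast hN4
  push_cast at h11
  linarith

/-- the upper bound for the lower limit -/
theorem upper {c : ℝ} (hc : kap < c) : ∃ᶠ N : ℕ in atTop,
    (f N : ℝ) * Real.log (Real.log N) / N ≤ c := by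
  set G : ℝ := Real.exp Real.eulerMascheroniConstant with hG
  have hG0 : 0 < G := Real.exp_pos _
  have hc0 : 0 < c := (Real.exp_pos _).trans hc
  have hcG : 1 < c * G := by
    rw [← kap_mul]
    exact mul_lt_mul_of_pos_right hc hG0
  have h1c : 1 / c < G := by rwa [div_lt_iff₀ hc0, mul_comm]
  rw [frequently_atTop]
  intro N₀
  obtain ⟨N, hN, hrep, hll, hle⟩ := exists_big (G - 1 / c) (by linarith) (N₀ + 1)
  refine ⟨N, by omega, ?_⟩
  have hNR : (0 : ℝ) < N := by
    have : 0 < N := by omega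
    exact_mod_cast this
  rw [div_le_iff₀ hNR]
  have h1 : G - (G - 1 / c) = 1 / c := by ring
  rw [← hG, h1] at hle
  have h2 : 1 / c * Real.log (Real.log N) * f N * c = f N * Real.log (Real.log N) := by
    field_simp
  rw [← h2, mul_comm c]
  exact mul_le_mul_of_nonneg_right hle hc0.le

theorem liminf_eq :
    liminf (fun N : ℕ => (f N : ℝ) * Real.log (Real.log N) / N) atTop = kap := by
  have hk0 : 0 < kap := Real.exp_pos _
  have hcob : IsCoboundedUnder (· ≥ ·) atTop
      (fun N : ℕ => (f N : ℝ) * Real.log (Real.log N) / N) :=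
    IsCoboundedUnder.of_frequently_le (upper (c := kap + 1) (by linarith))
  have hbdd : IsBoundedUnder (· ≥ ·) atTop
      (fun N : ℕ => (f N : ℝ) * Real.log (Real.log N) / N) :=
    ⟨kap / 2, by
      rw [eventually_map]
      exact lower (by linarith) (by linarith)⟩
  apply le_antisymm
  · apply le_of_forall_gt_imp_ge_of_dense
    intro c hc
    exact liminf_le_of_frequently_le (upper hc) hbdd
  · apply le_of_forall_lt_imp_le_of_dense
    intro c hc
    by_cases hc0 : 0 < c
    · exact le_liminf_of_le hcob (lower hc0 hc)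
    · refine le_trans (not_lt.1 hc0) (le_trans (by linarith : (0 : ℝ) ≤ kap / 2) ?_)
      exact le_liminf_of_le hcob (lower (by linarith) (by linarith))

/-- the two counting functions agree -/
theorem count_eq_count (ε : ℝ) (x : ℕ) :
    count {N | Representable N ∧ (f N : ℝ) ≤ ε * N} x = Pool.Agent.KS6_57.DS.count ε x := by
  unfold count Pool.Agent.KS6_57.DS.count
  congr 1
  ext N
  constructor
  · rintro ⟨h1, h2⟩
    exact ⟨h2.1, h2.2, h1.1, h1.2⟩
  · rintro ⟨h1, h2, h3, h4⟩
    exact ⟨⟨h3, h4⟩, h1, h2⟩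

/-- the lower bound for the share, for all small `ε` -/
theorem share_lower {c : ℝ} (hc : kap < c) : ∃ ε₀ : ℝ, 0 < ε₀ ∧ ∀ ε : ℝ, 0 < ε → ε ≤ ε₀ →
    ∃ x : ℕ, 1 ≤ x ∧ Real.exp (-Real.exp (c / ε)) * x ≤
      (count {N | Representable N ∧ (f N : ℝ) ≤ ε * N} x : ℝ) := by
  obtain ⟨ε₀, h1, h2⟩ := Pool.Agent.KS6_57.DS.lower (c - kap) (by linarith)
  refine ⟨ε₀, h1, fun ε h3 h4 => ?_⟩
  obtain ⟨x, hx, h5⟩ := h2 ε h3 h4
  rw [add_sub_cancel] at h5
  refine ⟨x, hx, ?_⟩
  rw [count_eq_count, mul_comm]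
  exact h5

/-- the upper bound for the share, for all small `ε` -/
theorem share_upper {c : ℝ} (hc : c < kap) : ∃ ε₀ : ℝ, 0 < ε₀ ∧ ∀ ε : ℝ, 0 < ε → ε ≤ ε₀ →
    ∀ x : ℕ, (count {N | Representable N ∧ (f N : ℝ) ≤ ε * N} x : ℝ) ≤
      Real.exp (-Real.exp (c / ε)) * x := by
  obtain ⟨ε₀, h1, h2⟩ := Pool.Agent.KS6_57.DS.upper (kap - c) (by linarith)
  refine ⟨ε₀, h1, fun ε h3 h4 x => ?_⟩
  have h5 := h2 ε h3 h4 x
  rw [sub_sub_cancel] at h5
  rw [count_eq_count, mul_comm]
  exact h5

/-- the law for the share -/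
theorem share_law : Tendsto (fun ε : ℝ => ε * Real.log (Real.log (1 / share ε))) (𝓝[>] 0)
    (𝓝 kap) := by
  rw [Metric.tendsto_nhds]
  intro δ hδ
  obtain ⟨e₁, he₁, H1⟩ := share_upper (c := kap - δ / 2) (by linarith)
  obtain ⟨e₂, he₂, H2⟩ := share_lower (c := kap + δ / 2) (by linarith)
  set a := kap
  filter_upwards [Ioc_mem_nhdsGT (lt_min he₁ he₂)] with ε hε
  have hup := H1 ε hε.1 (hε.2.trans (min_le_left _ _))
  obtain ⟨x₀, hx₀, hlow⟩ := H2 ε hε.1 (hε.2.trans (min_le_right _ _))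
  have hx₀R : (0 : ℝ) < x₀ := by exact_mod_cast hx₀
  have hub : ∀ x : ℕ, (count {N | Representable N ∧ (f N : ℝ) ≤ ε * N} x : ℝ) / x ≤
      Real.exp (-Real.exp ((a - δ / 2) / ε)) := by
    intro x
    rcases Nat.eq_zero_or_pos x with hx | hx
    · subst hx; simp; positivity
    · have : (0 : ℝ) < x := by exact_mod_cast hx
      rw [div_le_iff₀ this]
      exact hup x
  have hbdd : BddAbove (Set.range fun x : ℕ =>
      (count {N | Representable N ∧ (f N : ℝ) ≤ ε * N} x : ℝ) / x) :=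
    ⟨_, by rintro _ ⟨x, rfl⟩; exact hub x⟩
  have hs1 : share ε ≤ Real.exp (-Real.exp ((a - δ / 2) / ε)) := ciSup_le hub
  have hs2 : Real.exp (-Real.exp ((a + δ / 2) / ε)) ≤ share ε := by
    refine le_trans ?_ (le_ciSup hbdd x₀)
    rw [le_div_iff₀ hx₀R]
    exact hlow
  have hs0 : 0 < share ε := (Real.exp_pos _).trans_le hs2
  have hl1 : Real.exp ((a - δ / 2) / ε) ≤ Real.log (1 / share ε) := by
    rw [one_div, Real.log_inv]
    have := Real.log_le_log hs0 hs1
    rw [Real.log_exp] at this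
    linarith
  have hl2 : Real.log (1 / share ε) ≤ Real.exp ((a + δ / 2) / ε) := by
    rw [one_div, Real.log_inv]
    have := Real.log_le_log (Real.exp_pos _) hs2
    rw [Real.log_exp] at this
    linarith
  have hl0 : 0 < Real.log (1 / share ε) := (Real.exp_pos _).trans_le hl1
  have hm1 : (a - δ / 2) / ε ≤ Real.log (Real.log (1 / share ε)) := by
    have := Real.log_le_log (Real.exp_pos _) hl1
    rwa [Real.log_exp] at this
  have hm2 : Real.log (Real.log (1 / share ε)) ≤ (a + δ / 2) / ε := by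
    have := Real.log_le_log hl0 hl2
    rwa [Real.log_exp] at this
  rw [div_le_iff₀ hε.1] at hm1
  rw [le_div_iff₀ hε.1] at hm2
  rw [Real.dist_eq, abs_lt]
  constructor <;> linarith

/-- **Initial divisor sums: the sharp double exponential law.**

1. Every large `N` is representable.
2. For every `c < e ^ (-γ)` the double exponential moments are bounded:
`∑_{N ≤ x} exp (exp (c N / f (N))) ≤ C x`.
3. For every `c > e ^ (-γ)` they are not.
4. For every `c < e ^ (-γ)`, `#{N ≤ x : f (N) ≤ ε N} ≤ C exp (- exp (c / ε)) x` for all `ε > 0`.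
5. For every `c > e ^ (-γ)` and all small `ε > 0` this number is at least `exp (- exp (c / ε)) x`
for some `x ≥ 1`.
6. `log log (1 / share ε) ~ e ^ (-γ) / ε` as `ε → 0`.
7. The lower limit of `f (N) log log N / N` is `e ^ (-γ)`.
8. For every function `ψ` tending to zero, `N` is representable with `f (N) > ψ (N) N` for almost
all `N`.
9. The answer to Q1 is negative. -/
theorem result :
    (∃ N₀ : ℕ, ∀ N ≥ N₀, Representable N) ∧
    (∀ c : ℝ, c < Real.exp (-Real.eulerMascheroniConstant) → ∃ C : ℝ, ∀ x : ℕ,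
      ∑ N ∈ Finset.Icc 1 x, Real.exp (Real.exp (c * (N / f N))) ≤ C * x) ∧
    (∀ c : ℝ, Real.exp (-Real.eulerMascheroniConstant) < c → ∀ C : ℝ, ∃ x : ℕ, 1 ≤ x ∧
      C * x < ∑ N ∈ Finset.Icc 1 x, Real.exp (Real.exp (c * (N / f N)))) ∧
    (∀ c : ℝ, c < Real.exp (-Real.eulerMascheroniConstant) → ∃ C : ℝ, ∀ ε : ℝ, 0 < ε →
      ∀ x : ℕ, (count {N | Representable N ∧ (f N : ℝ) ≤ ε * N} x : ℝ) ≤
        C * Real.exp (-Real.exp (c / ε)) * x) ∧
    (∀ c : ℝ, Real.exp (-Real.eulerMascheroniConstant) < c → ∃ ε₀ : ℝ, 0 < ε₀ ∧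
      ∀ ε : ℝ, 0 < ε → ε ≤ ε₀ → ∃ x : ℕ, 1 ≤ x ∧ Real.exp (-Real.exp (c / ε)) * x ≤
        (count {N | Representable N ∧ (f N : ℝ) ≤ ε * N} x : ℝ)) ∧
    Tendsto (fun ε : ℝ => ε * Real.log (Real.log (1 / share ε))) (𝓝[>] 0)
      (𝓝 (Real.exp (-Real.eulerMascheroniConstant))) ∧
    liminf (fun N : ℕ => (f N : ℝ) * Real.log (Real.log N) / N) atTop =
      Real.exp (-Real.eulerMascheroniConstant) ∧
    (∀ ψ : ℕ → ℝ, Tendsto ψ atTop (𝓝 0) →
      HasDensity {N | Representable N ∧ ψ N * N < f N} 1) ∧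
    ¬ ∃ E : Set ℕ, HasDensity E 0 ∧ ∀ ε : ℝ, 0 < ε → ∃ N₀ : ℕ, ∀ N : ℕ, N₀ ≤ N → N ∉ E →
      Representable N ∧ (f N : ℝ) ≤ ε * N := by
  obtain ⟨-, -, -, -, h5, -, h7⟩ := Pool.Agent.Results.MP_d49c4f_nt.BoundedMoments.result
  refine ⟨large_representable, fun c hc => moments hc, fun c hc C => moments_unbounded hc C,
    fun c hc => ?_, fun c hc => share_lower hc, share_law, liminf_eq, h5, h7⟩
  obtain ⟨C, -, hC⟩ := tail hc
  exact ⟨C, hC⟩

end Pool.Agent.Results.MP_d49c4f_nt.DoubleExponentialLaw
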